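import Pool.Agent.Helper93_LE.FinG
import Pool.Agent.LE.StmtsR

/-!
# Exact decay rate: assembly
-/

set_option autoImplicit false
set_option linter.unusedSectionVars false

open MeasureTheory ProbabilityTheory Function Filter

open scoped ENNReal BigOperators ComplexInnerProductSpace Topology

noncomputable section

namespace Pool.Agent.LE.H96

open Pool.Agent.Anderson Pool.Agent.Loc Pool.Agent.Helper54.Bal Pool.Agent.Mob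
  Pool.Agent.Mob.H42

universe u

variable {d : ℕ}

theorem lyaAt_of_pr {σ E g : ℝ} (hg : 0 ≤ g) (h : ∀ ε : ℝ, 0 < ε →
    Tendsto (H93.pr d σ E (g + ε)) atTop (𝓝 0) ∧ Tendsto (H93.pr d σ E (g - ε)) atTop (𝓝 1)) :
    LyaAt d σ E g := by
  refine ⟨hg, fun ε hε => ⟨(h ε hε).1, ?_⟩⟩
  have h1 : Tendsto (fun L : ℕ => 1 - H93.pr d σ E (g - ε) L) atTop (𝓝 (1 - 1)) :=
    ENNReal.Tendsto.sub tendsto_const_nhds (h ε hε).2 (Or.inl ENNReal.one_ne_top)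
  rw [tsub_self] at h1
  exact h1.congr fun L => (H93.pr_compl σ E (g - ε) L).symm

/-- the rate of decay of a function on the lattice is exactly `g` -/
def RateIs (g : ℝ) (ψ : Site d → ℂ) : Prop :=
  (∀ m : ℝ, m < g → ∃ B : ℝ, ∀ x, ‖ψ x‖ ≤ B * Real.exp (-m * sd 0 x)) ∧
  ∀ m B : ℝ, g < m → ¬ ∀ x, ‖ψ x‖ ≤ B * Real.exp (-m * sd 0 x)

theorem poly_le_exp {ψ : Site d → ℂ} {m : ℝ} (hm : m < 0)
    (h : ∃ (B : ℝ) (k : ℕ), ∀ x, ‖ψ x‖ ≤ B * (1 + (sd 0 x : ℝ)) ^ k) :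
    ∃ B : ℝ, ∀ x, ‖ψ x‖ ≤ B * Real.exp (-m * sd 0 x) := by
  obtain ⟨B, k, hB⟩ := h
  have hB0 : 0 ≤ B := by
    have h0 := (norm_nonneg _).trans (hB 0)
    rw [sd_self, Nat.cast_zero, add_zero, one_pow, mul_one] at h0
    exact h0
  refine ⟨B * (k.factorial * (1 / (-m)) ^ k * Real.exp (-m)), fun x => (hB x).trans ?_⟩
  have ht : (0 : ℝ) ≤ 1 + (sd 0 x : ℝ) := by positivity
  have hmm : 0 < -m := by linarith
  have h1 := Real.pow_div_factorial_le_exp (-m * (1 + (sd 0 x : ℝ))) (by positivity) k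
  have hf : (0 : ℝ) < k.factorial := by exact_mod_cast k.factorial_pos
  rw [div_le_iff₀ hf] at h1
  have h2 : (1 + (sd 0 x : ℝ)) ^ k =
      (1 / (-m)) ^ k * (-m * (1 + (sd 0 x : ℝ))) ^ k := by
    rw [← mul_pow, ← mul_assoc, one_div_mul_cancel hmm.ne', one_mul]
  rw [h2, mul_assoc]
  apply mul_le_mul_of_nonneg_left _ hB0
  calc (1 / (-m)) ^ k * (-m * (1 + (sd 0 x : ℝ))) ^ k
      ≤ (1 / (-m)) ^ k * (Real.exp (-m * (1 + (sd 0 x : ℝ))) * k.factorial) :=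
        mul_le_mul_of_nonneg_left h1 (by positivity)
    _ = (k.factorial * (1 / (-m)) ^ k * Real.exp (-m)) * Real.exp (-m * sd 0 x) := by
        rw [mul_add, mul_one, Real.exp_add]
        ring

/-- The statement of the theorem. -/
def MainR.{v} : Prop :=
  ∀ d : ℕ, 1 ≤ d → ∀ σ : ℝ, σ ≠ 0 → ∃ γ : ℝ → ℝ,
    (∀ E : ℝ, 0 ≤ γ E ∧ ∀ ε : ℝ, 0 < ε → Tendsto (H93.pr d σ E (γ E + ε)) atTop (𝓝 0) ∧
      Tendsto (H93.pr d σ E (γ E - ε)) atTop (𝓝 1)) ∧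
    LowerSemicontinuous γ ∧
    (3 ≤ d → ∃ K : ℝ, ∀ E : ℝ, K < |E| → 0 < γ E) ∧
    ∀ (Ω : Type v) [MeasurableSpace Ω] (P : Measure Ω) [IsProbabilityMeasure P]
      (ξ : Site d → Ω → ℝ), (∀ y, Measurable (ξ y)) →
      (∀ y, P.map (ξ y) = gaussianReal 0 1) → iIndepFun ξ P →
      ∀ᵐ ω ∂P, ∀ (E : ℝ) (ψ : Site d → ℂ),
        (∀ x, lap ψ x + ((σ * ξ x ω : ℝ) : ℂ) * ψ x = (E : ℂ) * ψ x) →
        (∃ (B : ℝ) (k : ℕ), ∀ x, ‖ψ x‖ ≤ B * (1 + (sd 0 x : ℝ)) ^ k) → (∃ x, ψ x ≠ 0) →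
        RateIs (γ E) ψ

theorem mainR (hG : H93.MainG.{u}) (exi : ExiStmt) (exj : ExjStmt) (nxi : NxiStmt)
    (nxj : NxjStmt)
    (lsc : ∀ (d : ℕ) (σ : ℝ) (γ : ℝ → ℝ), 1 ≤ d → σ ≠ 0 → (∀ E, LyaAt d σ E (γ E)) →
      LowerSemicontinuous γ) : MainR.{u} := by
  intro d hd σ hσ
  obtain ⟨σ₁, C, hσ₁, hC, h⟩ := hG d hd
  obtain ⟨γ, h0, -, h1, h2, h3, h4⟩ := h σ hσ
  have hL : ∀ E, LyaAt d σ E (γ E) := fun E => lyaAt_of_pr (h0 E).1 (h0 E).2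
  refine ⟨γ, h0, lsc d σ γ hd hσ hL, fun hd3 => ⟨_, h3 hd3⟩, ?_⟩
  intro Ω _ P _ ξ hm hlaw hind
  have hPP := map_eq_PP hm hlaw hind σ
  have hmeas := measurable_W hm σ
  have a1 := nxi d σ γ (fun E => (h0 E).1) (exi d σ γ hd hσ hL)
  have a2 := nxj d σ γ (fun E => (h0 E).1) (exj d σ γ hd hσ hL)
  rw [← hPP] at a1 a2
  have b1 := ae_of_ae_map hmeas.aemeasurable a1
  have b2 := ae_of_ae_map hmeas.aemeasurable a2
  obtain ⟨g1, -⟩ := h4 Ω P ξ hm hlaw hind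
  -- countably many compact intervals
  have b3 : ∀ᵐ ω ∂P, ∀ p q : ℚ, Set.Icc (p : ℝ) q ⊆ {E | 0 < γ E} →
      ∃ m : ℝ, 0 < m ∧ ∀ E ∈ Set.Icc (p : ℝ) q, ∀ ψ : Site d → ℂ,
        (∃ (B : ℝ) (k : ℕ), ∀ x, ‖ψ x‖ ≤ B * (1 + (sd 0 x : ℝ)) ^ k) →
        (∀ x, lap ψ x + ((σ * ξ x ω : ℝ) : ℂ) * ψ x = (E : ℂ) * ψ x) →
        ∃ B : ℝ, ∀ x, ‖ψ x‖ ≤ B * Real.exp (-m * sd 0 x) := by
    rw [ae_all_iff]
    intro p
    rw [ae_all_iff]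
    intro q
    by_cases hpq : Set.Icc (p : ℝ) q ⊆ {E | 0 < γ E}
    · obtain ⟨m, hm0, hm1⟩ := g1 _ isCompact_Icc hpq
      filter_upwards [hm1] with ω hω _
      exact ⟨m, hm0, hω⟩
    · exact Filter.Eventually.of_forall fun ω hc => absurd hc hpq
  filter_upwards [b1, b2, b3] with ω c1 c2 c3 E ψ hψ hpoly hne
  have hlow : ∀ m B : ℝ, γ E < m → ¬ ∀ x, ‖ψ x‖ ≤ B * Real.exp (-m * sd 0 x) := by
    intro m B hmm hB
    obtain ⟨x, hx⟩ := hne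
    exact hx (c1 E ψ hψ B m hmm hB x)
  refine ⟨fun m hmm => ?_, hlow⟩
  rcases (h0 E).1.lt_or_eq with hpos | hzero
  · obtain ⟨r, hr, hball⟩ := Metric.isOpen_iff.1 h1 E hpos
    obtain ⟨p, hp1, hp2⟩ := exists_rat_btwn (show E - r < E by linarith)
    obtain ⟨q, hq1, hq2⟩ := exists_rat_btwn (show E < E + r by linarith)
    have hsub : Set.Icc (p : ℝ) q ⊆ {E | 0 < γ E} := by
      intro F hF
      apply hball
      rw [Metric.mem_ball, Real.dist_eq, abs_lt]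
      constructor <;> linarith [hF.1, hF.2]
    obtain ⟨m', hm', hc⟩ := c3 p q hsub
    obtain ⟨B, hB⟩ := hc E ⟨hp2.le, hq1.le⟩ ψ hpoly hψ
    exact c2 E ψ hψ ⟨B, m', hm', hB⟩ m hmm
  · rw [← hzero] at hmm
    exact poly_le_exp hmm hpoly

end Pool.Agent.LE.H96
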