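import Pool.Agent.LE.StmtsR
import Pool.Agent.Helper85_LE.NulRow

/-!
# EXJ: decay at least at the rate of the Lyapunov exponent, normalized at `0`
-/

set_option autoImplicit false

open MeasureTheory ProbabilityTheory Function Filter

open scoped ENNReal BigOperators Topology

noncomputable section

namespace Pool.Agent.LE.H96

open Pool.Agent.Anderson Pool.Agent.Loc Pool.Agent.Mob Pool.Agent.Helper54.Bal
  Pool.Agent.Helper96.EXP

variable {d : ℕ}

theorem dec_mono {C C' m m' : ℝ} {n : Site d → ℝ} (hC : C ≤ C') (hm : m' ≤ m) (h : Dec C m n) :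
    Dec C' m' n := by
  intro x
  have h0 := h.nonneg
  refine (h x).trans ?_
  have h1 : Real.exp (-m * sd 0 x) ≤ Real.exp (-m' * sd 0 x) := by
    apply Real.exp_le_exp.2
    have : (0 : ℝ) ≤ sd 0 x := by positivity
    nlinarith
  have h2 := Real.exp_pos (-m' * sd (0 : Site d) x)
  calc C * Real.exp (-m * sd 0 x) ≤ C * Real.exp (-m' * sd 0 x) :=
        mul_le_mul_of_nonneg_left h1 h0
    _ ≤ C' * Real.exp (-m' * sd 0 x) := mul_le_mul_of_nonneg_right hC h2.le

theorem sol_mono {C C' m m' E : ℝ} {V n : Site d → ℝ} (hC : C ≤ C') (hm : m' ≤ m)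
    (h : Sol C m V E n) : Sol C' m' V E n :=
  ⟨h.1, dec_mono hC hm h.2.1, h.2.2⟩

theorem lapR_sub (n n' : Site d → ℝ) (x : Site d) :
    lapR (fun z => n z - n' z) x = lapR n x - lapR n' x := by
  unfold lapR
  rw [← Finset.sum_sub_distrib]
  exact Finset.sum_congr rfl fun i _ => by ring

/-- two decaying eigenfunctions with value `1` at `0` and the same energy -/
theorem uniq {C m C' m' E : ℝ} {V n n' : Site d → ℝ} (hm : 0 < m) (hm' : 0 < m')
    (hn : Sol C m V E n) (hn' : Sol C' m' V E n')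
    (hsim : ∀ w : Site d → ℝ,
      (∃ B m' : ℝ, 0 < m' ∧ ∀ x, |w x| ≤ B * Real.exp (-m' * sd 0 x)) →
      (∀ x, lapR w x + V x * w x = E * w x) → w 0 = 0 → ∀ x, w x = 0) : n = n' := by
  have h1 : Sol (max C C') (min m m') V E n := sol_mono (le_max_left _ _) (min_le_left _ _) hn
  have h2 : Sol (max C C') (min m m') V E n' := sol_mono (le_max_right _ _) (min_le_right _ _) hn'
  have hmm : 0 < min m m' := lt_min hm hm'
  have hk := key hmm h1 h2
  have e0 : lapR n 0 = lapR n' 0 := by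
    have : (E - E) = 0 := sub_self E
    rw [this, zero_mul] at hk
    linarith
  have hw := hsim (fun x => n x - n' x) ⟨max C C' + max C C', min m m', hmm, fun x => ?_⟩
    (fun x => ?_) (by rw [h1.1, h2.1, sub_self])
  · funext x
    have := hw x
    linarith
  · have a1 := h1.2.1 x
    have a2 := h2.2.1 x
    calc |n x - n' x| ≤ |n x| + |n' x| := abs_sub _ _
      _ ≤ _ := by linarith
  · rw [lapR_sub]
    by_cases hx : x = 0
    · subst hx
      rw [h1.1, h2.1, e0]
      ring
    · have a1 := h1.2.2 x hx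
      have a2 := h2.2.2 x hx
      linear_combination a1 - a2

theorem meas_gt {γ : ℝ → ℝ} (h : ∀ c : ℝ, MeasurableSet {E : ℝ | γ E < c}) (c : ℝ) :
    MeasurableSet {E : ℝ | c < γ E} := by
  have e : {E : ℝ | c < γ E} = (⋂ k : ℕ, {E : ℝ | γ E < c + 1 / ((k : ℝ) + 1)})ᶜ := by
    ext E
    simp only [Set.mem_ofPred_eq, Set.mem_compl_iff, Set.mem_iInter, not_forall, not_lt]
    constructor
    · intro hE
      obtain ⟨k, hk⟩ := exists_nat_one_div_lt (sub_pos.2 hE)
      exact ⟨k, by linarith⟩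
    · rintro ⟨k, hk⟩
      have : (0 : ℝ) < 1 / ((k : ℝ) + 1) := by positivity
      linarith
  rw [e]
  exact (MeasurableSet.iInter fun k => h _).compl

theorem exj (gen : GenStmt) (sim : SimStmt) (fex : FexStmt) (sma : SmaStmt) (alg : AlgStmt)
    (mes : MesStmt) (clo : CloStmt) : ExjStmt := by
  intro d σ γ hd hσ hγ C m c K hm hc hK
  have hν := bddDens_gl hσ
  set B : Set ((Site d → ℝ) × ℝ) := {p | c < γ p.2 ∧ ∀ b : ℕ, ¬ GoodE (b : ℝ) c p.1 p.2} with hB
  have hBm : MeasurableSet B := by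
    have e : B = (Prod.snd ⁻¹' {E : ℝ | c < γ E}) ∩
        ⋂ b : ℕ, {p : (Site d → ℝ) × ℝ | GoodE (b : ℝ) c p.1 p.2}ᶜ := by
      ext p
      simp only [hB, Set.mem_ofPred_eq, Set.mem_inter_iff, Set.mem_preimage, Set.mem_iInter,
        Set.mem_compl_iff]
    rw [e]
    refine (measurable_snd (meas_gt (mes d σ γ hd hσ hγ) c)).inter
      (MeasurableSet.iInter fun b => ?_)
    exact (clo d (b : ℝ) c).1.measurableSet.compl
  have hinv : ∀ (V : Site d → ℝ) (r E : ℝ), (V, E) ∈ B ↔ (Function.update V 0 r, E) ∈ B := by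
    intro V r E
    simp only [hB, Set.mem_ofPred_eq, GoodE, H85.sol_update]
  -- one energy
  have hone : ∀ E : ℝ, c < γ E → PP d (gl σ) {V | GoodE C m V E ∧ (V, E) ∈ B} = 0 := by
    intro E hE
    set ε := (γ E - c) / 4 with hε
    have hε0 : 0 < ε := by rw [hε]; linarith
    have h1 := alg d σ E (γ E) ε hd hσ (hγ E) hε0
    obtain ⟨L₀, hL₀⟩ := sma d σ E (γ E - ε) ε ((d : ℝ) + 2) hd hσ hε0 (by rw [hε]; linarith) h1
    have hsub : ∀ L : ℕ, {V : Site d → ℝ | ¬ SG V L (γ E - ε - ε) E 0} ⊆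
        {V | ¬ AllGoodC V 0 L (γ E - ε - ε) E} := by
      intro L V hV hcon
      exact hV (hcon 0 (by rw [mem_box, sd_self]; exact Nat.zero_le _))
    have h2 := fex d (gl σ) E (γ E - ε - ε) c C m hm (by rw [hε]; linarith) ⟨L₀, fun L hL =>
      (measure_mono (hsub L)).trans (hL₀ L hL)⟩
    rw [ae_iff] at h2
    refine measure_mono_null ?_ h2
    rintro V ⟨⟨n, hn⟩, -, hb⟩
    simp only [Set.mem_ofPred_eq, not_forall]
    refine ⟨n, hn, ?_⟩
    rintro ⟨B', hB'⟩
    obtain ⟨b, hbb⟩ := exists_nat_ge B'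
    exact hb b ⟨n, hn.1, dec_mono hbb le_rfl hB', hn.2.2⟩
  have hgen := gen d (gl σ) (1 / |σ|) hν C m K B hm hK hBm hinv
    (Filter.Eventually.of_forall fun E => by
      by_cases hE : c < γ E
      · exact hone E hE
      · have e : {V : Site d → ℝ | GoodE C m V E ∧ (V, E) ∈ B} = ∅ := by
          ext V
          simp only [hB, Set.mem_ofPred_eq, Set.mem_empty_iff_false, iff_false]
          exact fun h => hE h.2.1
        rw [e]
        exact measure_empty)
  have hsim := sim d (gl σ) (1 / |σ|) hν C m hm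
  have hgen' : ∀ᵐ V ∂(PP d (gl σ)), ¬ ∃ E ∈ K, (V, E) ∈ B ∧
      ∃ n, Sol C m V E n ∧ lapR n 0 + V 0 = E := by
    rw [ae_iff]
    simpa only [not_not] using hgen
  filter_upwards [hgen', hsim] with V h1 h2 E hE hcE n hn he
  have h3 : ∃ b : ℕ, GoodE (b : ℝ) c V E := by
    by_contra hcon
    push Not at hcon
    exact h1 ⟨E, hE, ⟨hcE, hcon⟩, n, hn, he⟩
  obtain ⟨b, n', hn'⟩ := h3
  have h4 := uniq hm hc hn hn' (h2 E n hn he)
  rw [h4]
  exact ⟨b, hn'.2.1⟩

/-- EXI: no decay faster than the Lyapunov exponent, normalized at `0`. -/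
theorem exi (gen : GenStmt) (rsx : RsxStmt) (mes : MesStmt) : ExiStmt := by
  intro d σ γ hd hσ hγ C c K hc hK
  have hν := bddDens_gl hσ
  have h1 := gen d (gl σ) (1 / |σ|) hν C c K {p | γ p.2 < c} hc hK
    (measurable_snd (mes d σ γ hd hσ hγ c)) (fun V r E => Iff.rfl)
    (Filter.Eventually.of_forall fun E => ?_)
  · exact h1
  · by_cases hE : γ E < c
    · have h2 : PP d (gl σ) {V | GoodE C c V E} = 0 := by
        by_contra hcon
        set ε := (c - γ E) / 2 with hε
        have hε0 : 0 < ε := by rw [hε]; linarith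
        obtain ⟨δ, hδ, L₀, hL₀⟩ := rsx d σ E C c ε hd hσ hc hε0 hcon
        have h3 := ((hγ E).2 ε hε0).1
        have h4 : ENNReal.ofReal δ ≤ 0 := by
          refine ge_of_tendsto h3 ?_
          filter_upwards [Filter.eventually_ge_atTop L₀] with L hL
          have h5 := hL₀ L hL
          have e : c - ε = γ E + ε := by rw [hε]; ring
          rwa [e] at h5
        rw [nonpos_iff_eq_zero, ENNReal.ofReal_eq_zero] at h4
        linarith
      exact measure_mono_null (fun V h => h.1) h2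
    · have e : {V : Site d → ℝ | GoodE C c V E ∧ (V, E) ∈ {p : (Site d → ℝ) × ℝ | γ p.2 < c}} =
          ∅ := by
        ext V
        simp only [Set.mem_ofPred_eq, Set.mem_empty_iff_false, iff_false]
        exact fun h => hE h.2
      rw [e]
      exact measure_empty

end Pool.Agent.LE.H96
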