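import Pool.Agent.LE.StmtsG

/-!
# KEYX: the lower bound for the mean of two scales
-/

set_option autoImplicit false
set_option linter.unusedSectionVars false

open MeasureTheory ProbabilityTheory Function Filter

open scoped ENNReal BigOperators Topology

noncomputable section

namespace Pool.Agent.LE.H96

open Pool.Agent.Anderson Pool.Agent.Loc Pool.Agent.Mob Pool.Agent.Helper54.Bal

variable {d : ℕ}

/-! ### sites -/

theorem sd_add0 (a b : Site d) : sd a (a + b) = sd 0 b := by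
  apply le_antisymm
  · rw [sd_le_iff]
    intro i
    have h := (sd_le_iff.1 (le_refl (sd 0 b))) i
    have e : a i - (a + b) i = (0 : Site d) i - b i := by
      rw [Pi.add_apply, Pi.zero_apply]
      ring
    rwa [e]
  · rw [sd_le_iff]
    intro i
    have h := (sd_le_iff.1 (le_refl (sd a (a + b)))) i
    have e : (0 : Site d) i - b i = a i - (a + b) i := by
      rw [Pi.add_apply, Pi.zero_apply]
      ring
    rwa [e]

theorem sd_sm0 (l : ℕ) (y : Site d) : sd 0 (sm l y) ≤ l * sd 0 y := by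
  rw [sd_le_iff]
  intro i
  have h := (sd_le_iff.1 (le_refl (sd 0 y))) i
  have e : (0 : Site d) i - sm l y i = l * ((0 : Site d) i - y i) := by
    unfold sm
    rw [Pi.zero_apply]
    ring
  rw [e, abs_mul, Nat.abs_cast]
  push_cast
  exact mul_le_mul_of_nonneg_left h (by positivity)

theorem sm_add (m n : ℕ) (y : Site d) : sm (m + n) y = sm m y + sm n y := by
  funext j
  simp only [sm, Pi.add_apply]
  push_cast
  ring

theorem sm_zero (y : Site d) : sm 0 y = 0 := by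
  funext j
  simp only [sm, Pi.zero_apply]
  push_cast
  ring

theorem mem_shift {a : Site d} {R N m K : ℕ} {y : Site d} (ha : a ∈ box (0 : Site d) R)
    (hy : sd 0 y ≤ K) (h : R + m * K ≤ N) : a + sm m y ∈ box (0 : Site d) N := by
  rw [mem_box] at ha ⊢
  calc sd 0 (a + sm m y) ≤ sd 0 a + sd a (a + sm m y) := sd_triangle _ _ _
    _ ≤ R + m * K := by
        rw [sd_add0]
        exact add_le_add ha ((sd_sm0 m y).trans (Nat.mul_le_mul_left _ hy))
    _ ≤ N := h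

/-! ### sums -/

theorem sum_blocks (f : ℕ → ℝ) (ℓ n : ℕ) :
    ∑ j ∈ Finset.range ℓ, ∑ i ∈ Finset.range n, f (j + i * ℓ) =
      ∑ r ∈ Finset.range (ℓ * n), f r := by
  rw [Finset.sum_comm]
  induction n with
  | zero => simp
  | succ n ih =>
    rw [Finset.sum_range_succ, ih, Nat.mul_succ, Finset.sum_range_add]
    congr 1
    refine Finset.sum_congr rfl fun j _ => ?_
    congr 1
    ring

/-- the path inequality -/
theorem path_le (D : Site d → Site d → ℝ) (p : ℕ → Site d) (n : ℕ) :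
    D (p 0) (p (n + 1)) ≤ ∑ i ∈ Finset.range (n + 1), D (p i) (p (i + 1)) +
      ∑ i ∈ Finset.range n, max 0 (D (p 0) (p (i + 2)) - D (p 0) (p (i + 1)) -
        D (p (i + 1)) (p (i + 2))) := by
  induction n with
  | zero => simp
  | succ n ih =>
    have h := le_max_right 0 (D (p 0) (p (n + 2)) - D (p 0) (p (n + 1)) -
      D (p (n + 1)) (p (n + 2)))
    have e1 := Finset.sum_range_succ (fun i => D (p i) (p (i + 1))) (n + 1)
    have e2 := Finset.sum_range_succ (fun i => max 0 (D (p 0) (p (i + 2)) -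
      D (p 0) (p (i + 1)) - D (p (i + 1)) (p (i + 2)))) n
    rw [e1, e2]
    have e3 : n + 1 + 1 = n + 2 := rfl
    rw [e3]
    linarith

/-! ### norms -/

section

variable {N : ℕ} {Ω : Type} [MeasurableSpace Ω] {P : Measure Ω} [IsProbabilityMeasure P] {C : ℝ}
  {D : Ω → Site d → Site d → ℝ}

theorem memD (h : FamN d N P C D) {x y : Site d} (hx : x ∈ box (0 : Site d) N)
    (hy : y ∈ box (0 : Site d) N) : MemLp (fun ω => D ω x y) 2 P :=
  (memLp_two_iff_integrable_sq (h.meas x y).aestronglyMeasurable).2 (h.int x hx y hy)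

theorem admD (hN : NrmStmt) (h : FamN d N P C D) (hC : 0 < C) {R m : ℕ} {p q : Site d → Site d}
    (hp : ∀ a ∈ box (0 : Site d) R, p a ∈ box (0 : Site d) N)
    (hq : ∀ a ∈ box (0 : Site d) R, q a ∈ box (0 : Site d) N)
    (hm : ∀ a ∈ box (0 : Site d) R, sd (p a) (q a) ≤ m) :
    Adm P R (fun a ω => D ω (p a) (q a)) ∧
      nA P R (fun a ω => D ω (p a) (q a)) ≤ Real.sqrt C * (m + 1) := by
  refine ⟨fun a ha => ⟨h.meas _ _, h.int _ (hp a ha) _ (hq a ha)⟩, ?_⟩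
  refine (hN d Ω P R).2.2.2.2.1 _ _ (by positivity) fun a ha => ?_
  refine (h.sq _ (hp a ha) _ (hq a ha)).trans ?_
  rw [mul_pow, Real.sq_sqrt hC.le]
  have h1 : (sd (p a) (q a) : ℝ) ≤ m := by exact_mod_cast hm a ha
  gcongr

theorem admT (hN : NrmStmt) (h : FamN d N P C D) (hC : 0 < C) {R : ℕ}
    {p q r : Site d → Site d} (hp : ∀ a ∈ box (0 : Site d) R, p a ∈ box (0 : Site d) N)
    (hq : ∀ a ∈ box (0 : Site d) R, q a ∈ box (0 : Site d) N)
    (hr : ∀ a ∈ box (0 : Site d) R, r a ∈ box (0 : Site d) N) :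
    Adm P R (fun a ω => max 0 (D ω (p a) (r a) - D ω (p a) (q a) - D ω (q a) (r a))) ∧
      nA P R (fun a ω => max 0 (D ω (p a) (r a) - D ω (p a) (q a) - D ω (q a) (r a))) ≤
        Real.sqrt C := by
  constructor
  · intro a ha
    have hmeas : Measurable fun ω =>
        max 0 (D ω (p a) (r a) - D ω (p a) (q a) - D ω (q a) (r a)) :=
      measurable_const.max (((h.meas _ _).sub (h.meas _ _)).sub (h.meas _ _))
    refine ⟨hmeas, ?_⟩
    have h1 := ((memD h (hp a ha) (hr a ha)).sub (memD h (hp a ha) (hq a ha))).sub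
      (memD h (hq a ha) (hr a ha))
    have h2 : MemLp (fun ω => max 0 (D ω (p a) (r a) - D ω (p a) (q a) - D ω (q a) (r a))) 2 P := by
      refine h1.mono hmeas.aestronglyMeasurable (Filter.Eventually.of_forall fun ω => ?_)
      rw [Real.norm_eq_abs, Real.norm_eq_abs, abs_of_nonneg (le_max_left _ _)]
      exact max_le (abs_nonneg _) (le_abs_self _)
    exact (memLp_two_iff_integrable_sq hmeas.aestronglyMeasurable).1 h2
  · refine (hN d Ω P R).2.2.2.2.1 _ _ (by positivity) fun a ha => ?_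
    rw [Real.sq_sqrt hC.le]
    exact h.tri _ (hp a ha) _ (hq a ha) _ (hr a ha)

theorem admN (hN : NrmStmt) (h : FamN d N P C D) (hC : 0 < C) {R : ℕ}
    {p q : Site d → Site d} (hp : ∀ a ∈ box (0 : Site d) R, p a ∈ box (0 : Site d) N)
    (hq : ∀ a ∈ box (0 : Site d) R, q a ∈ box (0 : Site d) N) :
    Adm P R (fun a ω => max 0 (-D ω (p a) (q a))) ∧
      nA P R (fun a ω => max 0 (-D ω (p a) (q a))) ≤ Real.sqrt C := by
  constructor
  · intro a ha
    have hmeas : Measurable fun ω => max 0 (-D ω (p a) (q a)) :=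
      measurable_const.max (h.meas _ _).neg
    refine ⟨hmeas, ?_⟩
    have h2 : MemLp (fun ω => max 0 (-D ω (p a) (q a))) 2 P := by
      refine (memD h (hp a ha) (hq a ha)).mono hmeas.aestronglyMeasurable
        (Filter.Eventually.of_forall fun ω => ?_)
      rw [Real.norm_eq_abs, Real.norm_eq_abs, abs_of_nonneg (le_max_left _ _)]
      exact max_le (abs_nonneg _) (neg_le_abs _)
    exact (memLp_two_iff_integrable_sq hmeas.aestronglyMeasurable).1 h2
  · refine (hN d Ω P R).2.2.2.2.1 _ _ (by positivity) fun a ha => ?_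
    rw [Real.sq_sqrt hC.le]
    exact h.neg _ (hp a ha) _ (hq a ha)

theorem admMul {R : ℕ} {f : Site d → Ω → ℝ} (c : ℝ) (hf : Adm P R f) :
    Adm P R (fun a ω => c * f a ω) := by
  intro a ha
  obtain ⟨h1, h2⟩ := hf a ha
  refine ⟨h1.const_mul c, ?_⟩
  have e : (fun ω => (c * f a ω) ^ 2) = fun ω => c ^ 2 * f a ω ^ 2 := by
    funext ω
    ring
  rw [e]
  exact h2.const_mul _

theorem admAbs {R : ℕ} {f : Site d → Ω → ℝ} (hf : Adm P R f) :
    Adm P R (fun a ω => |f a ω|) := by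
  intro a ha
  obtain ⟨h1, h2⟩ := hf a ha
  refine ⟨h1.abs, ?_⟩
  simp only [sq_abs]
  exact h2

theorem nA_abs {R : ℕ} (f : Site d → Ω → ℝ) : nA P R (fun a ω => |f a ω|) = nA P R f := by
  unfold nA
  simp only [sq_abs]

theorem nA_nonneg {R : ℕ} (f : Site d → Ω → ℝ) : 0 ≤ nA P R f := Real.sqrt_nonneg _

/-- the path from `a` over `a + j y`, `a + j y + ℓ y`, ..., `a + j y + ℓ' ℓ y` to `a + ℓ' ℓ y` -/
def pth (y : Site d) (ℓ ℓ' j : ℕ) (a : Site d) (i : ℕ) : Site d :=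
  if i = 0 then a else if i ≤ ℓ' + 1 then a + sm (j + (i - 1) * ℓ) y else a + sm (ℓ * ℓ') y

theorem half (hN : NrmStmt) (h : FamN d N P C D) (hC : 0 < C) {R K ℓ ℓ' : ℕ} (hℓ : 1 ≤ ℓ)
    (hℓ' : 1 ≤ ℓ') (hR : R + 4 * K * (ℓ * ℓ') ≤ N) {y : Site d} (hy : sd 0 y ≤ K) :
    ∃ err : Site d → Ω → ℝ, Adm P R err ∧
      nA P R err ≤ Real.sqrt C * (2 * K + 3) * (1 / ℓ + 1 / ℓ') ∧
      ∀ a ∈ box (0 : Site d) R, ∀ ω, XX D y (ℓ * ℓ') a ω ≤
        1 / (ℓ * ℓ' : ℝ) * ∑ r ∈ Finset.range (ℓ * ℓ'), XX D y ℓ (a + sm r y) ω + err a ω := by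
  have hℓr : (0 : ℝ) < ℓ := by exact_mod_cast hℓ
  have hℓr' : (0 : ℝ) < ℓ' := by exact_mod_cast hℓ'
  have hℓ1 : (1 : ℝ) ≤ ℓ := by exact_mod_cast hℓ
  have hℓ1' : (1 : ℝ) ≤ ℓ' := by exact_mod_cast hℓ'
  have hLL : ℓ ≤ ℓ * ℓ' := Nat.le_mul_of_pos_right _ hℓ'
  have hLL' : ℓ' ≤ ℓ * ℓ' := Nat.le_mul_of_pos_left _ hℓ
  -- all sites of the paths
  have hmem : ∀ m : ℕ, m ≤ 2 * (ℓ * ℓ') → ∀ a ∈ box (0 : Site d) R,
      a + sm m y ∈ box (0 : Site d) N := by
    intro m hm a ha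
    refine mem_shift ha hy ?_
    have h1 : m * K ≤ 2 * (ℓ * ℓ') * K := Nat.mul_le_mul_right _ hm
    have h2 : 2 * (ℓ * ℓ') * K ≤ 4 * K * (ℓ * ℓ') := by nlinarith [Nat.zero_le (K * (ℓ * ℓ'))]
    omega
  have hpth : ∀ j < ℓ, ∀ i : ℕ, ∀ a ∈ box (0 : Site d) R,
      pth y ℓ ℓ' j a i ∈ box (0 : Site d) N := by
    intro j hj i a ha
    unfold pth
    split_ifs with h1 h2
    · have := hmem 0 (Nat.zero_le _) a ha
      rwa [sm_zero, add_zero] at this
    · apply hmem _ _ a ha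
      have h3 : (i - 1) * ℓ ≤ ℓ' * ℓ := Nat.mul_le_mul_right _ (by omega)
      rw [Nat.mul_comm ℓ' ℓ] at h3
      omega
    · exact hmem _ (by omega) a ha
  -- the terms
  set T : ℕ → ℕ → Site d → Ω → ℝ := fun j i a ω =>
    max 0 (D ω (pth y ℓ ℓ' j a 0) (pth y ℓ ℓ' j a (i + 2)) -
      D ω (pth y ℓ ℓ' j a 0) (pth y ℓ ℓ' j a (i + 1)) -
      D ω (pth y ℓ ℓ' j a (i + 1)) (pth y ℓ ℓ' j a (i + 2))) with hT
  set G : ℕ → Site d → Ω → ℝ := fun j a ω => D ω a (a + sm j y) +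
    (D ω (a + sm (j + ℓ * ℓ') y) (a + sm (ℓ * ℓ') y) +
      ∑ i ∈ Finset.range (ℓ' + 1), T j i a ω) with hG
  have hGadm : ∀ j < ℓ, Adm P R (G j) ∧
      nA P R (G j) ≤ Real.sqrt C * (j * K + 1 : ℕ) + (Real.sqrt C * (j * K + 1 : ℕ) +
        (ℓ' + 1 : ℕ) * Real.sqrt C) := by
    intro j hj
    have hid : ∀ a ∈ box (0 : Site d) R, a ∈ box (0 : Site d) N := by
      intro a ha
      have := hmem 0 (Nat.zero_le _) a ha
      rwa [sm_zero, add_zero] at this
    have g1 := admD hN h hC (R := R) (m := j * K) (p := fun a => a) (q := fun a => a + sm j y)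
      hid (fun a ha => hmem j (by omega) a ha)
      (fun a _ => by rw [sd_add0]; exact (sd_sm0 j y).trans (Nat.mul_le_mul_left _ hy))
    have g2 := admD hN h hC (R := R) (m := j * K) (p := fun a => a + sm (j + ℓ * ℓ') y)
      (q := fun a => a + sm (ℓ * ℓ') y)
      (fun a ha => hmem _ (by omega) a ha) (fun a ha => hmem _ (by omega) a ha)
      (fun a _ => by
        have e : a + sm (j + ℓ * ℓ') y = a + sm (ℓ * ℓ') y + sm j y := by
          rw [Nat.add_comm j, sm_add, add_assoc]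
        rw [e, sd_comm, sd_add0]
        exact (sd_sm0 j y).trans (Nat.mul_le_mul_left _ hy))
    have g3 := (hN d Ω P R).2.2.2.1 (ℓ' + 1) (T j) (Real.sqrt C)
      (fun i _ => (admT hN h hC (hpth j hj 0) (hpth j hj (i + 1)) (hpth j hj (i + 2))).1)
      (fun i _ => (admT hN h hC (hpth j hj 0) (hpth j hj (i + 1)) (hpth j hj (i + 2))).2)
    have g4 := (hN d Ω P R).1 _ _ g2.1 g3.1
    have g5 := (hN d Ω P R).1 _ _ g1.1 g4.1
    refine ⟨g5.1, g5.2.1.trans (add_le_add ?_ (g4.2.1.trans (add_le_add ?_ ?_)))⟩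
    · refine g1.2.trans (le_of_eq ?_)
      push_cast
      ring
    · refine g2.2.trans (le_of_eq ?_)
      push_cast
      ring
    · exact g3.2
  set B : ℝ := Real.sqrt C * (ℓ * K + 1) + (Real.sqrt C * (ℓ * K + 1) +
    (ℓ' + 1) * Real.sqrt C) with hB
  have hGB : ∀ j < ℓ, nA P R (G j) ≤ B := by
    intro j hj
    refine (hGadm j hj).2.trans ?_
    have h1 : ((j * K + 1 : ℕ) : ℝ) ≤ ℓ * K + 1 := by
      push_cast
      have : (j : ℝ) ≤ ℓ := by exact_mod_cast hj.le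
      gcongr
    rw [hB]
    push_cast at h1 ⊢
    gcongr
  have hsum := (hN d Ω P R).2.2.2.1 ℓ G B (fun j hj => (hGadm j hj).1) hGB
  refine ⟨fun a ω => 1 / (ℓ * (ℓ * ℓ') : ℝ) * ∑ j ∈ Finset.range ℓ, G j a ω,
    admMul _ hsum.1, ?_, ?_⟩
  · rw [(hN d Ω P R).2.2.1, abs_of_nonneg (by positivity)]
    calc 1 / (ℓ * (ℓ * ℓ') : ℝ) * nA P R (fun a ω => ∑ j ∈ Finset.range ℓ, G j a ω)
        ≤ 1 / (ℓ * (ℓ * ℓ') : ℝ) * (ℓ * B) := by
          apply mul_le_mul_of_nonneg_left hsum.2 (by positivity)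
      _ = Real.sqrt C * (2 * K / ℓ' + 1 / ℓ + 3 / (ℓ * ℓ')) := by
          rw [hB]
          field_simp
          ring
      _ ≤ Real.sqrt C * ((2 * K + 3) * (1 / ℓ + 1 / ℓ')) := by
          apply mul_le_mul_of_nonneg_left _ (Real.sqrt_nonneg _)
          have e1 : (3 : ℝ) / (ℓ * ℓ') ≤ 3 / ℓ' := by
            apply div_le_div_of_nonneg_left (by norm_num) hℓr'
            nlinarith
          have e2 : (0 : ℝ) ≤ K := Nat.cast_nonneg K
          have e3 : (0 : ℝ) < 1 / ℓ := by positivity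
          have e4 : (2 * K + 3) * (1 / (ℓ : ℝ) + 1 / ℓ') =
              2 * K / ℓ' + 3 / ℓ' + (2 * K + 3) * (1 / ℓ) := by
            field_simp
            ring
          rw [e4]
          nlinarith
      _ = _ := by ring
  · intro a ha ω
    -- the path inequality for each `j`
    have hj : ∀ j ∈ Finset.range ℓ, D ω a (a + sm (ℓ * ℓ') y) ≤
        ∑ i ∈ Finset.range ℓ', ℓ * XX D y ℓ (a + sm (j + i * ℓ) y) ω + G j a ω := by
      intro j hj
      have h1 := path_le (D ω) (pth y ℓ ℓ' j a) (ℓ' + 1)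
      have e0 : pth y ℓ ℓ' j a 0 = a := by simp [pth]
      have e1 : pth y ℓ ℓ' j a (ℓ' + 1 + 1) = a + sm (ℓ * ℓ') y := by
        unfold pth
        rw [if_neg (by omega), if_neg (by omega)]
      have e2 : ∀ i : ℕ, i ≤ ℓ' → pth y ℓ ℓ' j a (i + 1) = a + sm (j + i * ℓ) y := by
        intro i hi
        unfold pth
        rw [if_neg (by omega), if_pos (by omega)]
        rfl
      rw [Finset.sum_range_succ, Finset.sum_range_succ'] at h1
      rw [e1, e0] at h1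
      have e3 : ∑ i ∈ Finset.range ℓ', D ω (pth y ℓ ℓ' j a (i + 1)) (pth y ℓ ℓ' j a (i + 1 + 1)) =
          ∑ i ∈ Finset.range ℓ', ℓ * XX D y ℓ (a + sm (j + i * ℓ) y) ω := by
        refine Finset.sum_congr rfl fun i hi => ?_
        rw [Finset.mem_range] at hi
        rw [e2 i hi.le, e2 (i + 1) (by omega)]
        unfold XX
        rw [mul_div_cancel₀ _ hℓr.ne']
        congr 1
        rw [add_assoc, ← sm_add]
        congr 2
        ring
      have e4 : pth y ℓ ℓ' j a (0 + 1) = a + sm j y := by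
        rw [e2 0 (Nat.zero_le _)]
        simp
      have e5 : pth y ℓ ℓ' j a (ℓ' + 1) = a + sm (j + ℓ * ℓ') y := by
        rw [e2 ℓ' le_rfl, Nat.mul_comm ℓ' ℓ]
      rw [e3, e4, e5] at h1
      simp only [hG, hT, e0]
      linarith
    have h2 : (ℓ : ℝ) * D ω a (a + sm (ℓ * ℓ') y) ≤
        ℓ * ∑ r ∈ Finset.range (ℓ * ℓ'), XX D y ℓ (a + sm r y) ω +
          ∑ j ∈ Finset.range ℓ, G j a ω := by
      have h3 := Finset.sum_le_sum hj
      rw [Finset.sum_const, Finset.card_range, nsmul_eq_mul, Finset.sum_add_distrib,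
        sum_blocks (fun r => ℓ * XX D y ℓ (a + sm r y) ω), ← Finset.mul_sum] at h3
      exact h3
    unfold XX at h2 ⊢
    have h4 : (0 : ℝ) < ℓ * (ℓ * ℓ') := by positivity
    have h5 := div_le_div_of_nonneg_right h2 h4.le
    have e6 : (ℓ : ℝ) * D ω a (a + sm (ℓ * ℓ') y) / (ℓ * (ℓ * ℓ')) =
        D ω a (a + sm (ℓ * ℓ') y) / ((ℓ * ℓ' : ℕ) : ℝ) := by
      push_cast
      field_simp
    rw [e6] at h5
    refine h5.trans (le_of_eq ?_)
    rw [add_div]
    congr 1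
    · field_simp
    · field_simp

/-- the norm of a shift -/
theorem shift_le (hN : NrmStmt) {R : ℕ} {f : Site d → Ω → ℝ} {b : Site d} {e : ℝ} (he : 0 ≤ e)
    (h : |Av R (fun a => ∫ ω, f (a + b) ω ^ 2 ∂P) - Av R (fun a => ∫ ω, f a ω ^ 2 ∂P)| ≤ e ^ 2) :
    nA P R (fun a ω => f (a + b) ω) ≤ nA P R f + e := by
  unfold nA
  have h1 := (abs_le.1 h).2
  apply Real.sqrt_le_iff.2
  have h0 : 0 ≤ Av R (fun a => ∫ ω, f a ω ^ 2 ∂P) := by
    unfold Av
    exact div_nonneg (Finset.sum_nonneg fun a _ => integral_nonneg fun ω => sq_nonneg _)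
      (by positivity)
  refine ⟨by positivity, ?_⟩
  have h2 := Real.sq_sqrt h0
  have h3 := Real.sqrt_nonneg (Av R (fun a => ∫ ω, f a ω ^ 2 ∂P))
  nlinarith

end

theorem keyX (hN : NrmStmt) (hA : AvsStmt) : KeyXStmt := by
  intro d K C hC hK
  have hC' : 0 < Real.sqrt C := Real.sqrt_pos.2 hC
  refine ⟨Real.sqrt C * (2 * K + 3) + Real.sqrt C, by positivity, ?_⟩
  intro ℓ ℓ' e hℓ hℓ' he
  have hℓr : (0 : ℝ) < ℓ := by exact_mod_cast hℓ
  have hℓr' : (0 : ℝ) < ℓ' := by exact_mod_cast hℓ'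
  have hℓ1 : (1 : ℝ) ≤ ℓ := by exact_mod_cast hℓ
  have hℓ1' : (1 : ℝ) ≤ ℓ' := by exact_mod_cast hℓ'
  have hLL : ℓ ≤ ℓ * ℓ' := Nat.le_mul_of_pos_right _ hℓ'
  have hLL' : ℓ' ≤ ℓ * ℓ' := Nat.le_mul_of_pos_left _ hℓ
  have hLr : (0 : ℝ) < ((ℓ * ℓ' : ℕ) : ℝ) := by
    push_cast
    positivity
  obtain ⟨R₀, hR₀⟩ := hA d (K * (ℓ * ℓ')) (C * (K + 1) ^ 2) (e ^ 2) (by positivity)
  refine ⟨R₀, ?_⟩
  intro R N hR hRN Ω _ P _ D hD y hy
  -- the two halves
  obtain ⟨e1, ha1, hb1, hc1⟩ := half (P := P) hN hD hC hℓ hℓ' hRN hy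
  obtain ⟨e2, ha2, hb2, hc2⟩ := half (P := P) hN hD hC hℓ' hℓ
    (by rwa [Nat.mul_comm ℓ' ℓ]) hy
  set Z : Site d → Ω → ℝ := fun a ω => (XX D y ℓ a ω + XX D y ℓ' a ω) / 2 with hZ
  have hKm : ∀ m : ℕ, m ≤ 2 * (ℓ * ℓ') → m * K ≤ 4 * K * (ℓ * ℓ') := by
    intro m hm
    have h1 : m * K ≤ 2 * (ℓ * ℓ') * K := Nat.mul_le_mul_right _ hm
    nlinarith [Nat.zero_le (K * (ℓ * ℓ'))]
  -- integrability of `Z`
  have hZ1 : ∀ b ∈ box (0 : Site d) (R + K * (ℓ * ℓ')), Measurable (Z b) ∧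
      Integrable (fun ω => Z b ω ^ 2) P ∧ ∫ ω, Z b ω ^ 2 ∂P ≤ C * (K + 1) ^ 2 := by
    intro b hb
    have m0 : b ∈ box (0 : Site d) N := by
      have h1 := mem_shift (m := 0) (N := N) hb hy (by
        have := hKm (ℓ * ℓ') (by omega)
        have h2 : ℓ * ℓ' * K = K * (ℓ * ℓ') := Nat.mul_comm _ _
        omega)
      rwa [sm_zero, add_zero] at h1
    have mm : ∀ m : ℕ, m ≤ ℓ * ℓ' → b + sm m y ∈ box (0 : Site d) N := by
      intro m hm
      apply mem_shift hb hy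
      have h1 : m * K ≤ ℓ * ℓ' * K := Nat.mul_le_mul_right _ hm
      have h2 : ℓ * ℓ' * K = K * (ℓ * ℓ') := Nat.mul_comm _ _
      have h3 : 4 * K * (ℓ * ℓ') = 4 * (K * (ℓ * ℓ')) := by ring
      omega
    have i1 := hD.int b m0 _ (mm ℓ hLL)
    have i2 := hD.int b m0 _ (mm ℓ' hLL')
    have l1 : MemLp (fun ω => XX D y ℓ b ω) 2 P := by
      have := (memD hD m0 (mm ℓ hLL)).const_mul ((ℓ : ℝ)⁻¹)
      refine this.congr_norm ?_ ?_
      · exact ((hD.meas _ _).div_const _).aestronglyMeasurable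
      · refine Filter.Eventually.of_forall fun ω => ?_
        simp only [XX]
        rw [div_eq_inv_mul]
    have l2 : MemLp (fun ω => XX D y ℓ' b ω) 2 P := by
      have := (memD hD m0 (mm ℓ' hLL')).const_mul ((ℓ' : ℝ)⁻¹)
      refine this.congr_norm ?_ ?_
      · exact ((hD.meas _ _).div_const _).aestronglyMeasurable
      · refine Filter.Eventually.of_forall fun ω => ?_
        simp only [XX]
        rw [div_eq_inv_mul]
    have hmeas : Measurable (Z b) :=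
      (((hD.meas _ _).div_const _).add ((hD.meas _ _).div_const _)).div_const _
    have hZL : MemLp (Z b) 2 P := by
      have := (l1.add l2).const_mul ((2 : ℝ)⁻¹)
      refine this.congr_norm hmeas.aestronglyMeasurable ?_
      refine Filter.Eventually.of_forall fun ω => ?_
      simp only [hZ, Pi.add_apply]
      rw [div_eq_inv_mul]
    have hZi := (memLp_two_iff_integrable_sq hmeas.aestronglyMeasurable).1 hZL
    refine ⟨hmeas, hZi, ?_⟩
    have hq : ∀ m : ℕ, 1 ≤ m → m ≤ ℓ * ℓ' → ∫ ω, XX D y m b ω ^ 2 ∂P ≤ C * (K + 1) ^ 2 := by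
      intro m hm hmL
      have hmr : (1 : ℝ) ≤ m := by exact_mod_cast hm
      have e1 : (fun ω => XX D y m b ω ^ 2) =
          fun ω => (1 / (m : ℝ) ^ 2) * D ω b (b + sm m y) ^ 2 := by
        funext ω
        simp only [XX]
        rw [div_pow]
        ring
      rw [e1, integral_const_mul]
      have h1 := hD.sq b m0 _ (mm m hmL)
      have h2 : ((sd b (b + sm m y) : ℕ) : ℝ) ≤ m * K := by
        rw [sd_add0]
        exact_mod_cast (sd_sm0 m y).trans (Nat.mul_le_mul_left _ hy)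
      calc (1 / (m : ℝ) ^ 2) * ∫ ω, D ω b (b + sm m y) ^ 2 ∂P
          ≤ (1 / (m : ℝ) ^ 2) * (C * ((sd b (b + sm m y) : ℝ) + 1) ^ 2) := by gcongr
        _ ≤ (1 / (m : ℝ) ^ 2) * (C * (m * K + m) ^ 2) := by gcongr
        _ = C * (K + 1) ^ 2 := by
          field_simp
    have q1 := hq ℓ hℓ hLL
    have q2 := hq ℓ' hℓ' hLL'
    have j1 := (memLp_two_iff_integrable_sq l1.1).1 l1
    have j2 := (memLp_two_iff_integrable_sq l2.1).1 l2
    calc ∫ ω, Z b ω ^ 2 ∂P ≤ ∫ ω, (XX D y ℓ b ω ^ 2 / 2 + XX D y ℓ' b ω ^ 2 / 2) ∂P := by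
          refine integral_mono hZi ((j1.div_const 2).add (j2.div_const 2)) fun ω => ?_
          simp only [hZ]
          nlinarith [sq_nonneg (XX D y ℓ b ω - XX D y ℓ' b ω)]
      _ = (∫ ω, XX D y ℓ b ω ^ 2 ∂P) / 2 + (∫ ω, XX D y ℓ' b ω ^ 2 ∂P) / 2 := by
          rw [integral_add (j1.div_const 2) (j2.div_const 2), integral_div, integral_div]
      _ ≤ C * (K + 1) ^ 2 := by linarith
  -- the average of `Z`
  have hsh : ∀ r < ℓ * ℓ', Adm P R (fun a ω => Z (a + sm r y) ω) ∧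
      nA P R (fun a ω => Z (a + sm r y) ω) ≤ nA P R Z + e := by
    intro r hr
    have hrK : sd 0 (sm r y) ≤ K * (ℓ * ℓ') := by
      refine (sd_sm0 r y).trans ?_
      rw [Nat.mul_comm K]
      exact Nat.mul_le_mul hr.le hy
    have hin : ∀ a ∈ box (0 : Site d) R, a + sm r y ∈ box (0 : Site d) (R + K * (ℓ * ℓ')) := by
      intro a ha
      rw [mem_box] at ha ⊢
      refine (sd_triangle 0 a _).trans ?_
      rw [sd_add0]
      omega
    refine ⟨fun a ha => ⟨(hZ1 _ (hin a ha)).1, (hZ1 _ (hin a ha)).2.1⟩, ?_⟩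
    apply shift_le hN he.le
    refine hR₀ R hR (fun a => ∫ ω, Z a ω ^ 2 ∂P) (sm r y) hrK ?_
    intro a ha
    rw [abs_of_nonneg (integral_nonneg fun ω => sq_nonneg _)]
    exact (hZ1 a ha).2.2
  have hF := (hN d Ω P R).2.2.2.1 (ℓ * ℓ') (fun r a ω => Z (a + sm r y) ω) (nA P R Z + e)
    (fun r hr => (hsh r hr).1) (fun r hr => (hsh r hr).2)
  -- the four functions
  set F : Site d → Ω → ℝ := fun a ω =>
    1 / ((ℓ * ℓ' : ℕ) : ℝ) * ∑ r ∈ Finset.range (ℓ * ℓ'), Z (a + sm r y) ω with hFdef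
  have hFa : Adm P R F := admMul _ hF.1
  have hFn : nA P R F ≤ nA P R Z + e := by
    rw [hFdef, (hN d Ω P R).2.2.1, abs_of_nonneg (by positivity)]
    calc 1 / ((ℓ * ℓ' : ℕ) : ℝ) * nA P R (fun a ω => ∑ r ∈ Finset.range (ℓ * ℓ'), Z (a + sm r y) ω)
        ≤ 1 / ((ℓ * ℓ' : ℕ) : ℝ) * (((ℓ * ℓ' : ℕ) : ℝ) * (nA P R Z + e)) := by
          apply mul_le_mul_of_nonneg_left hF.2 (by positivity)
      _ = nA P R Z + e := by
          rw [← mul_assoc, one_div_mul_cancel hLr.ne', one_mul]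
  set H1 : Site d → Ω → ℝ := fun a ω => 1 / 2 * e1 a ω with hH1
  set H2 : Site d → Ω → ℝ := fun a ω => 1 / 2 * e2 a ω with hH2
  set H3 : Site d → Ω → ℝ := fun a ω =>
    1 / ((ℓ * ℓ' : ℕ) : ℝ) * max 0 (-D ω a (a + sm (ℓ * ℓ') y)) with hH3
  have hmem : ∀ m : ℕ, m ≤ ℓ * ℓ' → ∀ a ∈ box (0 : Site d) R,
      a + sm m y ∈ box (0 : Site d) N := by
    intro m hm a ha
    apply mem_shift ha hy
    have := hKm m (by omega)
    omega
  have hmem0 : ∀ a ∈ box (0 : Site d) R, a ∈ box (0 : Site d) N := by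
    intro a ha
    have := hmem 0 (Nat.zero_le _) a ha
    rwa [sm_zero, add_zero] at this
  have h3 := admN (P := P) hN hD hC (R := R) (p := fun a => a)
    (q := fun a => a + sm (ℓ * ℓ') y) hmem0 (hmem _ le_rfl)
  have hH1a : Adm P R H1 := admMul _ ha1
  have hH2a : Adm P R H2 := admMul _ ha2
  have hH3a : Adm P R H3 := admMul _ h3.1
  have hH1n : nA P R H1 ≤ 1 / 2 * (Real.sqrt C * (2 * K + 3) * (1 / ℓ + 1 / ℓ')) := by
    rw [hH1, (hN d Ω P R).2.2.1, abs_of_nonneg (by norm_num)]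
    exact mul_le_mul_of_nonneg_left hb1 (by norm_num)
  have hH2n : nA P R H2 ≤ 1 / 2 * (Real.sqrt C * (2 * K + 3) * (1 / ℓ' + 1 / ℓ)) := by
    rw [hH2, (hN d Ω P R).2.2.1, abs_of_nonneg (by norm_num)]
    exact mul_le_mul_of_nonneg_left hb2 (by norm_num)
  have hH3n : nA P R H3 ≤ Real.sqrt C * (1 / ℓ + 1 / ℓ') := by
    rw [hH3, (hN d Ω P R).2.2.1, abs_of_nonneg (by positivity)]
    calc 1 / ((ℓ * ℓ' : ℕ) : ℝ) * nA P R (fun a ω => max 0 (-D ω a (a + sm (ℓ * ℓ') y)))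
        ≤ 1 / ((ℓ * ℓ' : ℕ) : ℝ) * Real.sqrt C :=
          mul_le_mul_of_nonneg_left h3.2 (by positivity)
      _ ≤ (1 / ℓ + 1 / ℓ') * Real.sqrt C := by
          apply mul_le_mul_of_nonneg_right _ hC'.le
          have h4 : 1 / ((ℓ * ℓ' : ℕ) : ℝ) ≤ 1 / ℓ := by
            push_cast
            apply one_div_le_one_div_of_le hℓr
            nlinarith
          have h5 : (0 : ℝ) < 1 / ℓ' := by positivity
          linarith
      _ = _ := by ring
  have s1 := (hN d Ω P R).1 _ _ (admAbs hH2a) (admAbs hH3a)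
  have s2 := (hN d Ω P R).1 _ _ (admAbs hH1a) s1.1
  have s3 := (hN d Ω P R).1 _ _ (admAbs hFa) s2.1
  have hpt : ∀ a ∈ box (0 : Site d) R, ∀ ω, |XX D y (ℓ * ℓ') a ω| ≤
      |(|F a ω| + (|H1 a ω| + (|H2 a ω| + |H3 a ω|)))| := by
    intro a ha ω
    have hnn : 0 ≤ |F a ω| + (|H1 a ω| + (|H2 a ω| + |H3 a ω|)) := by positivity
    rw [abs_of_nonneg hnn]
    have u1 := hc1 a ha ω
    have u2 := hc2 a ha ω
    have hFe : F a ω = 1 / 2 * (1 / (ℓ * ℓ' : ℝ) *
        ∑ r ∈ Finset.range (ℓ * ℓ'), XX D y ℓ (a + sm r y) ω) + 1 / 2 * (1 / (ℓ' * ℓ : ℝ) *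
        ∑ r ∈ Finset.range (ℓ' * ℓ), XX D y ℓ' (a + sm r y) ω) := by
      rw [hFdef, Nat.mul_comm ℓ' ℓ]
      simp only [hZ]
      rw [← Finset.sum_div, Finset.sum_add_distrib]
      push_cast
      ring
    have u3 : XX D y (ℓ * ℓ') a ω ≤ F a ω + H1 a ω + H2 a ω := by
      rw [hFe]
      simp only [hH1, hH2]
      have e3 : XX D y (ℓ' * ℓ) a ω = XX D y (ℓ * ℓ') a ω := by rw [Nat.mul_comm]
      rw [e3] at u2
      linarith
    have u4 : -XX D y (ℓ * ℓ') a ω ≤ H3 a ω := by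
      simp only [XX, hH3]
      rw [← neg_div, div_eq_mul_one_div, mul_comm]
      exact mul_le_mul_of_nonneg_left (le_max_right _ _) (by positivity)
    have v1 := le_abs_self (F a ω)
    have v2 := le_abs_self (H1 a ω)
    have v3 := le_abs_self (H2 a ω)
    have v4 := le_abs_self (H3 a ω)
    have w1 := abs_nonneg (F a ω)
    have w2 := abs_nonneg (H1 a ω)
    have w3 := abs_nonneg (H2 a ω)
    have w4 := abs_nonneg (H3 a ω)
    apply abs_le.2
    constructor <;> linarith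
  have hfin := (hN d Ω P R).2.1 _ _ s3.1 hpt
  have t1 := s3.2.1
  have t2 := s2.2.1
  have t3 := s1.2.1
  rw [nA_abs] at t1 t2 t3
  rw [nA_abs] at t3
  have hfin2 : nA P R (XX D y (ℓ * ℓ')) ≤ nA P R F + (nA P R H1 + (nA P R H2 + nA P R H3)) := by
    linarith
  calc nA P R (XX D y (ℓ * ℓ')) ≤ nA P R F + (nA P R H1 + (nA P R H2 + nA P R H3)) := hfin2
    _ ≤ (nA P R Z + e) + (1 / 2 * (Real.sqrt C * (2 * K + 3) * (1 / ℓ + 1 / ℓ')) +
        (1 / 2 * (Real.sqrt C * (2 * K + 3) * (1 / ℓ' + 1 / ℓ)) +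
          Real.sqrt C * (1 / ℓ + 1 / ℓ'))) := by
        linarith
    _ = _ := by ring

end Pool.Agent.LE.H96
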