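import Pool.Agent.LE.StmtsR
import Pool.Agent.Helper3_LE.SmaR
import Pool.Agent.Helper3_LE.ConA

/-!
# LSC: the Lyapunov exponent is a lower semicontinuous function of the energy
-/

set_option autoImplicit false
set_option linter.unusedSectionVars false

open MeasureTheory ProbabilityTheory Function Filter

open scoped ENNReal BigOperators Topology

noncomputable section

namespace Pool.Agent.LE.H96

open Pool.Agent.Anderson Pool.Agent.Loc Pool.Agent.Mob Pool.Agent.Helper54.Bal

variable {d : ℕ}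

theorem continuous_RM_E (V : Site d → ℝ) (Λ : Finset (Site d)) :
    Continuous fun E : ℝ => RM V Λ E := by
  apply continuous_matrix
  intro x y
  simp only [RM, HM, Matrix.sub_apply, Matrix.smul_apply, Matrix.of_apply, smul_eq_mul]
  fun_prop

theorem continuous_det_E (V : Site d → ℝ) (Λ : Finset (Site d)) :
    Continuous fun E : ℝ => (RM V Λ E).det := (continuous_RM_E V Λ).matrix_det

theorem continuousAt_gr_E (V : Site d → ℝ) (Λ : Finset (Site d)) {E : ℝ}
    (hE : (RM V Λ E).det ≠ 0) (x y : Site d) : ContinuousAt (fun E : ℝ => gr V Λ E x y) E := by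
  by_cases h : x ∈ Λ ∧ y ∈ Λ
  · simp_rw [gr_eq_adj h.1 h.2]
    apply ContinuousAt.mul
    · exact (continuous_det_E V Λ).continuousAt.inv₀ hE
    · have h1 : Continuous fun E : ℝ => (RM V Λ E).adjugate :=
        (continuous_RM_E V Λ).matrix_adjugate
      exact (h1.matrix_elem _ _).continuousAt
  · have : (fun E : ℝ => gr V Λ E x y) = fun _ => 0 := by
      funext E
      unfold gr
      rw [dif_neg h]
    rw [this]
    exact continuousAt_const

theorem open_allGood {V : Site d → ℝ} {L : ℕ} {κ κ' E : ℝ} (hL : 1 ≤ L) (hκ : κ' < κ)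
    (h : AllGoodC V 0 L κ E) : ∀ᶠ F in 𝓝 E, AllGoodC V 0 L κ' F := by
  unfold AllGoodC
  refine (Finset.eventually_all _).2 fun s hs => ?_
  obtain ⟨h1, h2⟩ := h s hs
  have hd : ∀ᶠ F in 𝓝 E, (RM V (box s L) F).det ≠ 0 :=
    (continuous_det_E V (box s L)).continuousAt.eventually_ne h1
  have hu : ∀ᶠ F in 𝓝 E, ∀ u ∈ box s L, sd s u = L →
      |gr V (box s L) F s u| ≤ Real.exp (-κ' * L) := by
    refine (Finset.eventually_all _).2 fun u _ => ?_
    by_cases hsu : sd s u = L
    · have hlt : |gr V (box s L) E s u| < Real.exp (-κ' * L) := by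
        refine (h2 u hsu).trans_lt (Real.exp_lt_exp.2 ?_)
        have : (1 : ℝ) ≤ L := by exact_mod_cast hL
        nlinarith
      have hc := (continuousAt_gr_E V (box s L) h1 s u).abs
      filter_upwards [hc.eventually_lt continuousAt_const hlt] with F hF _
      exact hF.le
    · exact Filter.Eventually.of_forall fun F hF => absurd hF hsu
  filter_upwards [hd, hu] with F hF1 hF2
  exact ⟨hF1, fun u hsu => hF2 u (mem_box.2 hsu.le) hsu⟩

/-- the finite volume condition is stable under small changes of the energy -/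
theorem stable {σ E κ κ' p p' : ℝ} {L : ℕ} (hL : 1 ≤ L) (hκ : κ' < κ) (hp : 0 ≤ p)
    (hpp : p < p')
    (h : PP d (gl σ) {V | ¬ AllGoodC V 0 L κ E} ≤ ENNReal.ofReal p) :
    ∀ᶠ F in 𝓝 E, PP d (gl σ) {V | ¬ AllGoodC V 0 L κ' F} ≤ ENNReal.ofReal p' := by
  by_contra hcon
  have hfr : ∃ᶠ F in 𝓝 E, ¬ PP d (gl σ) {V | ¬ AllGoodC V 0 L κ' F} ≤ ENNReal.ofReal p' :=
    Filter.not_eventually.1 hcon
  obtain ⟨F, hF, hFp⟩ := exists_seq_forall_of_frequently hfr
  set A : ℕ → Set (Site d → ℝ) := fun n => {V | ¬ AllGoodC V 0 L κ' (F n)} with hA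
  have hAm : ∀ n, MeasurableSet (A n) := fun n => (H3A.measurableSet_allGoodC L κ' (F n) 0).compl
  set B : ℕ → Set (Site d → ℝ) := fun n => ⋃ k, A (n + k) with hB
  have hBm : ∀ n, MeasurableSet (B n) := fun n => MeasurableSet.iUnion fun k => hAm _
  have hanti : Antitone B := by
    intro n m hnm V hV
    simp only [hB, Set.mem_iUnion] at hV ⊢
    obtain ⟨k, hk⟩ := hV
    refine ⟨m - n + k, ?_⟩
    have e : n + (m - n + k) = m + k := by omega
    rw [e]
    exact hk
  have hlim := tendsto_measure_iInter_atTop (μ := PP d (gl σ))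
    (fun n => (hBm n).nullMeasurableSet) hanti ⟨0, measure_ne_top _ _⟩
  have hsub : (⋂ n, B n) ⊆ {V | ¬ AllGoodC V 0 L κ E} := by
    intro V hV hgood
    have h1 := hF.eventually (open_allGood hL hκ hgood)
    obtain ⟨n, hn⟩ := eventually_atTop.1 h1
    have h2 := Set.mem_iInter.1 hV n
    simp only [hB, Set.mem_iUnion] at h2
    obtain ⟨k, hk⟩ := h2
    exact hk (hn (n + k) (by omega))
  have h3 : ENNReal.ofReal p' ≤ PP d (gl σ) (⋂ n, B n) := by
    refine ge_of_tendsto' hlim fun n => ?_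
    have h4 : ENNReal.ofReal p' < PP d (gl σ) (A n) := not_le.1 (hFp n)
    refine h4.le.trans (measure_mono ?_)
    intro V hV
    simp only [hB, Set.mem_iUnion]
    exact ⟨0, hV⟩
  have h5 := h3.trans ((measure_mono hsub).trans h)
  rw [ENNReal.ofReal_le_ofReal_iff hp] at h5
  linarith

/-- LSC -/
theorem lsc (smp : SmpStmt) (smn : SmnStmt) (alg : AlgStmt) (d : ℕ) (σ : ℝ) (γ : ℝ → ℝ)
    (hd : 1 ≤ d) (hσ : σ ≠ 0) (hγ : ∀ E, LyaAt d σ E (γ E)) : LowerSemicontinuous γ := by
  intro E₀ y hy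
  by_cases hy0 : y < 0
  · exact Filter.Eventually.of_forall fun E => hy0.trans_le (hγ E).1
  push Not at hy0
  set η := (γ E₀ - y) / 4 with hη
  have hη0 : 0 < η := by rw [hη]; linarith
  have hν := bddDens_gl hσ
  obtain ⟨p₀, hp₀, L₀, hsmn⟩ := smn d (1 / |σ|) (γ E₀ - 2 * η) η 1 hd (by positivity) hη0
    (by rw [hη]; linarith)
  have h1 := alg d σ E₀ (γ E₀) η hd hσ (hγ E₀) hη0
  obtain ⟨L₂, hL₂⟩ := eventually_atTop.1 (ENNReal.tendsto_nhds_zero.1 h1
    (ENNReal.ofReal (p₀ / 2)) (by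
      rw [gt_iff_lt, ENNReal.ofReal_pos]
      positivity))
  set L := max 1 (max L₀ L₂) with hL
  obtain ⟨ℓ, μ, p, hℓ0, hμ0, hp0, hstep, L₁, hlast⟩ := hsmn L
    ((le_max_left _ _).trans (le_max_right _ _))
  have hst := stable (d := d) (σ := σ) (E := E₀) (κ := γ E₀ - η) (κ' := γ E₀ - 2 * η)
    (p := p₀ / 2) (p' := p₀) (L := L) (le_max_left _ _) (by linarith) (by positivity)
    (by linarith) (hL₂ L ((le_max_right _ _).trans (le_max_right _ _)))
  filter_upwards [hst] with E hE
  by_contra hcon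
  push Not at hcon
  have hk : ∀ k, PP d (gl σ) {V | ¬ AllGoodC V 0 (ℓ k) (μ k) E} ≤ ENNReal.ofReal (p k) := by
    intro k
    induction k with
    | zero =>
      rw [hℓ0, hμ0, hp0]
      exact hE
    | succ k ih =>
      exact H3R.stepN_apply smp (gl σ) hν E (hstep k).1 (hstep k).2.1 (hstep k).2.2 ih
  have hM : ∀ M : ℕ, L₁ ≤ M → PP d (gl σ) {V | ¬ SG V M (y + η) E 0} ≤
      ENNReal.ofReal ((M : ℝ) ^ (-(1 : ℝ))) := by
    intro M hM
    obtain ⟨k, hs⟩ := hlast M hM
    have h2 := H3R.stepN_apply smp (gl σ) hν E (hstep k).1 (hstep k).2.1 hs (hk k)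
    have e : γ E₀ - 2 * η - η = y + η := by rw [hη]; ring
    rw [e] at h2
    refine (measure_mono ?_).trans h2
    intro V hV hg
    exact hV (hg 0 (by rw [mem_box, sd_self]; exact Nat.zero_le _))
  have hη2 : 0 < y + η - γ E := by linarith
  have h3 := ((hγ E).2 _ hη2).1
  have e2 : γ E + (y + η - γ E) = y + η := by ring
  rw [e2] at h3
  have h4 : Tendsto (fun M : ℕ => PP d (gl σ) {V | ¬ SG V M (y + η) E 0}) atTop (𝓝 0) := by
    have h5 : Tendsto (fun M : ℕ => ENNReal.ofReal ((M : ℝ) ^ (-(1 : ℝ)))) atTop (𝓝 0) := by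
      have h6 : Tendsto (fun M : ℕ => (M : ℝ) ^ (-(1 : ℝ))) atTop (𝓝 0) :=
        (tendsto_rpow_neg_atTop one_pos).comp tendsto_natCast_atTop_atTop
      have h7 := ENNReal.tendsto_ofReal h6
      rwa [ENNReal.ofReal_zero] at h7
    refine tendsto_of_tendsto_of_tendsto_of_le_of_le' tendsto_const_nhds h5
      (Filter.Eventually.of_forall fun M => zero_le) ?_
    filter_upwards [eventually_ge_atTop L₁] with M hM'
    exact hM M hM'
  have h5 := h3.add h4
  rw [add_zero] at h5
  have h6 : (1 : ℝ≥0∞) ≤ 0 := by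
    refine ge_of_tendsto' h5 fun M => ?_
    rw [← measure_univ (μ := PP d (gl σ))]
    refine (measure_mono ?_).trans (measure_union_le _ _)
    intro V _
    by_cases hV : SG V M (y + η) E 0
    · exact Or.inl hV
    · exact Or.inr hV
  exact absurd h6 (by norm_num)

end Pool.Agent.LE.H96
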