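import Pool.Agent.Helper93_LE.All
import Pool.Agent.Helper93_LE.FinG
import Pool.Agent.Helper28_LE.Nrm
import Pool.Agent.Helper77_LE.Subx
import Pool.Agent.Helper96_LE.KeyX
import Pool.Agent.Helper15_LE.CAU
import Pool.Agent.Helper59_LE.Pig3
import Pool.Agent.Helper59_LE.Gevg
import Pool.Agent.Helper59_LE.Detx
import Pool.Agent.Helper3_LE.ZooG
import Pool.Agent.Helper3_LE.LocG
import Pool.Agent.Helper54_LE.LYA
import Pool.Agent.Helper59_LE.Smd
import Pool.Agent.Helper76_LE.Smp
import Pool.Agent.Helper15_LE.SMN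
import Pool.Agent.Helper3_LE.SmaR
import Pool.Agent.Helper3_LE.AlgR
import Pool.Agent.Helper59_LE.Rsx
import Pool.Agent.Helper77_LE.Fex
import Pool.Agent.Helper85_LE.Gen
import Pool.Agent.Helper3_LE.SimR
import Pool.Agent.Helper28_LE.Mes
import Pool.Agent.Helper69_LE.Nxi
import Pool.Agent.Helper39_LE.NXJ
import Pool.Agent.Helper77_LE.Clo
import Pool.Agent.Helper96_LE.Exj
import Pool.Agent.Helper96_LE.Lsc
import Pool.Agent.Helper96_LE.ExactDecay

/-!
# The Lyapunov exponent and the exact decay rate: all modules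
-/

set_option autoImplicit false

open MeasureTheory ProbabilityTheory

noncomputable section

namespace Pool.Agent.LE.H96

open Pool.Agent.Anderson Pool.Agent.Loc Pool.Agent.Helper54.Bal Pool.Agent.Mob

theorem subxT : SubXStmt := H77S.subx H28N.nrm H77.avs

theorem cauT : CauStmt := H15.cau subxT (keyX H28N.nrm H77.avs) H28N.nrm

theorem gevgT : GevGStmt :=
  H59.gevg (H59A.pig3 cauT H69.shi H77.avs) H54.fmn
    (fun d σ E _ hσ => ⟨_, Pool.Agent.LY.oneTail (d := d) hσ E⟩)
    (fun d σ E _ hσ => Pool.Agent.LY.chn (d := d) hσ E)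

theorem detGT : DetGStmt := H59.detG H46.fvd

theorem zooT : ZooStmt := H3G.zoo gevgT detGT (H59.detX H46.fvd)

theorem locGT : LocGStmt := H3G.locg zooT gevgT detGT H93.msaT

theorem lyaT : LyaStmt := H54.lya zooT

theorem mainGT.{u} : H93.MainG.{u} :=
  H93.mainG in2T blkT H32.lrg H58.edg H58.bdc H75.tbx (H6.sep wegT) H48.dcy
    (H46.cmp (H98.dic H32.nrm) H48.cen) H25.shf insT lyaT locGT H93.cnvT

theorem smpT : SmpStmt := H76.smp H59S.smd

theorem algT : AlgStmt := H3R.alg gevgT detGT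

theorem smaT : SmaStmt := H3R.sma smpT H15.smn

theorem exiT : ExiStmt := exi H85.gen H59R.rsx H28R.mes

theorem exjT : ExjStmt := exj H85.gen (H3R.sim H85.gen) H77F.fex smaT algT H28R.mes H77.clo

theorem mainRT.{u} : MainR.{u} :=
  mainR mainGT exiT exjT H69.nxi H39R.nxj (fun d σ γ hd hσ h => lsc smpT H15.smn algT d σ γ hd hσ h)

end Pool.Agent.LE.H96
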