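import Pool.Agent.LE.StmtsA

/-!
# The Markov part of the good event
-/

set_option autoImplicit false

open MeasureTheory ProbabilityTheory Function

open scoped ENNReal BigOperators

noncomputable section

namespace Pool.Agent.LE.H96

open Pool.Agent.Anderson Pool.Agent.Loc Pool.Agent.Mob Pool.Agent.Helper54.Bal Pool.Agent.LE

variable {d : ℕ}

theorem sd_sm_le (ℓ : ℕ) (a y : Site d) {n : ℕ} (h : sd 0 y ≤ n) : sd a (a + sm ℓ y) ≤ ℓ * n := by
  rw [sd]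
  apply Finset.sup_le
  intro i _
  have h1 : (0 - y i).natAbs ≤ n := by
    refine le_trans ?_ h
    rw [sd]
    exact Finset.le_sup (f := fun i => ((0 : Site d) i - y i).natAbs) (Finset.mem_univ i)
  have h2 : (a i - (a + sm ℓ y) i) = (ℓ : ℤ) * (0 - y i) := by
    simp only [Pi.add_apply, sm]
    ring
  rw [h2, Int.natAbs_mul, Int.natAbs_natCast]
  exact Nat.mul_le_mul_left _ h1

theorem FamN.integrable {N : ℕ} {Ω : Type} [MeasurableSpace Ω] {P : Measure Ω}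
    [IsProbabilityMeasure P] {C : ℝ} {D : Ω → Site d → Site d → ℝ} (hF : FamN d N P C D)
    {x y : Site d} (hx : x ∈ box (0 : Site d) N) (hy : y ∈ box (0 : Site d) N) :
    Integrable (fun ω => D ω x y) P := by
  have h1 := hF.int x hx y hy
  have h2 : Integrable (fun ω => 1 + D ω x y ^ 2) P := (integrable_const 1).add h1
  refine h2.mono' (hF.meas x y).aestronglyMeasurable (Filter.Eventually.of_forall fun ω => ?_)
  rw [Real.norm_eq_abs]
  nlinarith [sq_abs (D ω x y), sq_nonneg (|D ω x y| - 1), abs_nonneg (D ω x y)]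

/-- Markov and the union bound. -/
theorem markov {N : ℕ} {Ω : Type} [MeasurableSpace Ω] (P : Measure Ω)
    [IsProbabilityMeasure P] {C : ℝ} (D : Ω → Site d → Site d → ℝ) (hF : FamN d N P C D)
    (Q ℓ : ℕ) (hQ : 1 ≤ Q) (hℓ : 1 ≤ ℓ) (a : Site d) (κ₃ ε : ℝ) (h3 : 0 < κ₃) (hε : 0 ≤ ε)
    (hbox : box a (9 * (Q * ℓ)) ⊆ box 0 N)
    (hpig : ∀ y k : Site d, sd 0 y ≤ 8 * Q → sd 0 k ≤ 8 * Q →
      ∫ ω, |D ω a (a + sm ℓ y) - D ω (a + sm ℓ k) (a + sm ℓ k + sm ℓ y)| ∂P ≤ ε * (ℓ : ℕ)) :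
    P {ω | ¬ ∀ k ∈ box (0 : Site d) (8 * Q), ∀ y ∈ box (0 : Site d) Q,
      |D ω a (a + sm ℓ y) - D ω (a + sm ℓ k) (a + sm ℓ k + sm ℓ y)| ≤ κ₃ * (Q * ℓ)} ≤
      ENNReal.ofReal ((17 * Q) ^ d * (3 * Q) ^ d * (ε / κ₃)) := by
  classical
  have hQ' : (1 : ℝ) ≤ Q := by exact_mod_cast hQ
  have hℓ' : (1 : ℝ) ≤ ℓ := by exact_mod_cast hℓ
  set f : Site d → Site d → Ω → ℝ := fun k y ω =>
    |D ω a (a + sm ℓ y) - D ω (a + sm ℓ k) (a + sm ℓ k + sm ℓ y)| with hf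
  have hsub : {ω | ¬ ∀ k ∈ box (0 : Site d) (8 * Q), ∀ y ∈ box (0 : Site d) Q,
      |D ω a (a + sm ℓ y) - D ω (a + sm ℓ k) (a + sm ℓ k + sm ℓ y)| ≤ κ₃ * (Q * ℓ)} ⊆
      ⋃ k ∈ box (0 : Site d) (8 * Q), ⋃ y ∈ box (0 : Site d) Q,
        {ω | κ₃ * (Q * ℓ) ≤ f k y ω} := by
    intro ω hω
    simp only [Set.mem_ofPred_eq, not_forall, not_le] at hω
    obtain ⟨k, hk, y, hy, h⟩ := hω
    simp only [Set.mem_iUnion, Set.mem_ofPred_eq]
    exact ⟨k, hk, y, hy, h.le⟩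
  have hone : ∀ k ∈ box (0 : Site d) (8 * Q), ∀ y ∈ box (0 : Site d) Q,
      P {ω | κ₃ * (Q * ℓ) ≤ f k y ω} ≤ ENNReal.ofReal (ε / κ₃) := by
    intro k hk y hy
    have hy' : sd 0 y ≤ Q := mem_box.1 hy
    have hk' : sd 0 k ≤ 8 * Q := mem_box.1 hk
    have m1 : a ∈ box (0 : Site d) N := hbox (mem_box.2 (by rw [sd_self]; exact Nat.zero_le _))
    have m2 : a + sm ℓ y ∈ box (0 : Site d) N := by
      refine hbox (mem_box.2 ((sd_sm_le ℓ a y hy').trans ?_))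
      nlinarith
    have m3 : a + sm ℓ k ∈ box (0 : Site d) N := by
      refine hbox (mem_box.2 ((sd_sm_le ℓ a k hk').trans ?_))
      nlinarith
    have m4 : a + sm ℓ k + sm ℓ y ∈ box (0 : Site d) N := by
      refine hbox (mem_box.2 ?_)
      refine (sd_triangle a (a + sm ℓ k) _).trans ?_
      have h1 := sd_sm_le ℓ a k hk'
      have h2 := sd_sm_le ℓ (a + sm ℓ k) y hy'
      nlinarith
    have hint : Integrable (f k y) P := by
      have h1 := (FamN.integrable hF m1 m2).sub (FamN.integrable hF m3 m4)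
      exact h1.abs
    have hc : 0 < κ₃ * (Q * ℓ) := by positivity
    have hmk := mul_meas_ge_le_integral_of_nonneg (μ := P)
      (Filter.Eventually.of_forall fun ω => abs_nonneg _) hint (κ₃ * (Q * ℓ))
    have h5 : ∫ ω, f k y ω ∂P ≤ ε * ℓ := hpig y k (hy'.trans (by omega)) hk'
    have h6 : (P {ω | κ₃ * (Q * ℓ) ≤ f k y ω}).toReal ≤ ε / κ₃ := by
      have h7 : κ₃ * (Q * ℓ) * (P {ω | κ₃ * (Q * ℓ) ≤ f k y ω}).toReal ≤ ε * ℓ := hmk.trans h5
      rw [le_div_iff₀ h3]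
      have h8 : 0 ≤ (P {ω | κ₃ * (Q * ℓ) ≤ f k y ω}).toReal := ENNReal.toReal_nonneg
      have h9 : (P {ω | κ₃ * (Q * ℓ) ≤ f k y ω}).toReal * κ₃ * ℓ ≤ ε * ℓ := by
        refine le_trans ?_ h7
        have : 0 ≤ (P {ω | κ₃ * (Q * ℓ) ≤ f k y ω}).toReal * κ₃ * ℓ := by positivity
        nlinarith
      exact le_of_mul_le_mul_right h9 (by linarith)
    rw [← ENNReal.ofReal_toReal (measure_ne_top P {ω | κ₃ * (Q * ℓ) ≤ f k y ω})]
    exact ENNReal.ofReal_le_ofReal h6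
  calc P _ ≤ P (⋃ k ∈ box (0 : Site d) (8 * Q), ⋃ y ∈ box (0 : Site d) Q,
        {ω | κ₃ * (Q * ℓ) ≤ f k y ω}) := measure_mono hsub
    _ ≤ ∑ k ∈ box (0 : Site d) (8 * Q), ∑ y ∈ box (0 : Site d) Q,
        P {ω | κ₃ * (Q * ℓ) ≤ f k y ω} :=
      (measure_biUnion_finset_le _ _).trans
        (Finset.sum_le_sum fun k _ => measure_biUnion_finset_le _ _)
    _ ≤ ∑ k ∈ box (0 : Site d) (8 * Q), ∑ y ∈ box (0 : Site d) Q, ENNReal.ofReal (ε / κ₃) :=
      Finset.sum_le_sum fun k hk => Finset.sum_le_sum fun y hy => hone k hk y hy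
    _ = ENNReal.ofReal ((2 * (8 * Q : ℕ) + 1 : ℕ) ^ d * ((2 * Q + 1 : ℕ) ^ d * (ε / κ₃))) := by
      rw [Finset.sum_const, Finset.sum_const, card_box, card_box, smul_smul, nsmul_eq_mul,
        ← ENNReal.ofReal_natCast, ← ENNReal.ofReal_mul (by positivity)]
      congr 1
      push_cast
      ring
    _ ≤ ENNReal.ofReal ((17 * Q) ^ d * (3 * Q) ^ d * (ε / κ₃)) := by
      apply ENNReal.ofReal_le_ofReal
      rw [← mul_assoc]
      refine mul_le_mul_of_nonneg_right ?_ (by positivity)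
      push_cast
      gcongr
      · linarith
      · linarith

end Pool.Agent.LE.H96
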